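import Pool.Agent.TBS.LabK
import Pool.Agent.TBS.ColFour

/-!
# Two-bend drawings of graphs with a balanced 4-colouring

Let `G` be a finite simple graph with a proper colouring with four colours such that every vertex has
at most two neighbours of each colour (so the maximum degree is at most 6), and such that for each of
the three ways to split the four colours into two pairs every set `S` of at least two vertices
contains at most `2 |S| - 3` edges from one pair to the other.  Then `G` has a 3D orthogonal
point-drawing with at most two bends per edge, and even one in general position.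

The second condition holds for every planar graph (the edges between the two pairs form a bipartite
planar graph).  The theorem applies for example to the icosahedron (three vertices of each colour)
and to all its iterated subdivisions (every triangle divided into four by the midpoints of its sides;
give the old vertices one colour, and the midpoint of the edge `uv` the colour `c u + c v` in the
group of order four and exponent two): these are planar triangulations with twelve vertices of
degree 5 and all others of degree 6.

Proof.  By Koenig's theorem the edges can be coloured with two colours such that two edges from a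
vertex to vertices of the same colour are different.  Number the three pairings by 0, 1, 2; an edge
`uv` whose ends are in the same pair of pairing `i` gets the labels `i + 1` and `i + 2` at its ends;
which end gets which label depends on the colour of the edge.  Every label occurs at most twice at
every vertex (`TBS.four_labels`), and the half-edges of label `a` lie on the edges between the two
pairs of pairing `a`, one on each.  The sparsity gives for every label an order of the vertices such
that every vertex lies between its two neighbours of this label (`TBS.valid_of_K`); these three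
orders are the coordinates.  The routes are those of `TB.drawing`.
-/

set_option autoImplicit false

namespace Pool.Agent.Results.MP_dadc3d_co.FourColouring

open Finset

/-- `x` is a lattice point of the axis-parallel segment from `p` to `q` (as in the frozen
statement). -/
def Seg (p q x : Fin 3 → ℤ) : Prop :=
  ∃ i : Fin 3, (∀ j : Fin 3, j ≠ i → x j = p j ∧ q j = p j) ∧
      ((p i ≤ x i ∧ x i ≤ q i) ∨ (q i ≤ x i ∧ x i ≤ p i))

/-- The three ways to split the colours `0, 1, 2, 3` into two pairs: in way `i` the colour `x`
belongs to the pair `{0, i + 1}`. -/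
abbrev InPair (i : Fin 3) (x : Fin 4) : Prop := x = 0 ∨ x.val = i.val + 1

theorem card_pairs {V : Type} [DecidableEq V] (W : Finset V) (p : V → V → Prop)
    [∀ u, DecidablePred (p u)] :
    ((W ×ˢ W).filter fun e : V × V => p e.1 e.2).card = ∑ u ∈ W, (W.filter fun v => p u v).card := by
  rw [card_filter, sum_product]
  refine sum_congr rfl fun u _ => ?_
  rw [card_filter]

theorem side_ne (i : Fin 3) (x y : Fin 4) (h : TBS.side i x ≠ TBS.side i y) :
    (InPair i x ∧ ¬ InPair i y) ∨ (InPair i y ∧ ¬ InPair i x) := by
  revert i x y
  decide

theorem k_of_colour {V : Type} [Fintype V] [DecidableEq V] (G : SimpleGraph V)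
    [DecidableRel G.Adj] (c : V → Fin 4)
    (hS : ∀ (i : Fin 3) (S : Finset V), 2 ≤ S.card →
      (∑ u ∈ S.filter (fun u => InPair i (c u)),
        (S.filter fun v => G.Adj u v ∧ ¬ InPair i (c v)).card) + 3 ≤ 2 * S.card)
    (α : V → V → Fin 3) (h1 : ∀ u v, G.Adj u v → α u v ≠ α v u)
    (h4 : ∀ u v, G.Adj u v → TBS.side (α u v) (c u) ≠ TBS.side (α u v) (c v))
    (a : Fin 3) (W : Finset V) (w : V) (hw : w ∈ W) (h2 : 2 ≤ W.card) :
    ∃ v ∈ W, v ≠ w ∧ (W.filter fun v' => G.Adj v v' ∧ α v v' = a).card ≤ 1 := by
  by_contra hcon
  push Not at hcon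
  -- at least `2 (|W| - 1)` half-edges of label `a`
  have e1 : 2 * (W.card - 1) ≤
      ∑ u ∈ W, (W.filter fun v' => G.Adj u v' ∧ α u v' = a).card := by
    have e2 : ∑ u ∈ W.erase w, (W.filter fun v' => G.Adj u v' ∧ α u v' = a).card ≤
        ∑ u ∈ W, (W.filter fun v' => G.Adj u v' ∧ α u v' = a).card :=
      sum_le_sum_of_subset (erase_subset _ _)
    refine le_trans ?_ e2
    have e3 : (W.erase w).card • 2 ≤
        ∑ u ∈ W.erase w, (W.filter fun v' => G.Adj u v' ∧ α u v' = a).card := by
      refine card_nsmul_le_sum _ _ _ fun u hu => ?_
      exact hcon u (mem_of_mem_erase hu) (ne_of_mem_erase hu)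
    rw [card_erase_of_mem hw] at e3
    rw [smul_eq_mul, mul_comm] at e3
    exact e3
  -- they inject into the pairs from one pair of colours to the other
  have e4 : ((W ×ˢ W).filter fun e : V × V => G.Adj e.1 e.2 ∧ α e.1 e.2 = a).card ≤
      (((W.filter fun u => InPair a (c u)) ×ˢ W).filter
        fun e : V × V => G.Adj e.1 e.2 ∧ ¬ InPair a (c e.2)).card := by
    have hend : ∀ u v, G.Adj u v → α u v = a →
        (InPair a (c u) ∧ ¬ InPair a (c v)) ∨ (InPair a (c v) ∧ ¬ InPair a (c u)) := by
      intro u v h h'
      refine side_ne a _ _ ?_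
      rw [← h']
      exact h4 u v h
    refine card_le_card_of_injOn (fun e => if InPair a (c e.1) then e else e.swap) ?_ ?_
    · intro e he
      simp only [coe_filter, mem_product, Set.mem_ofPred_eq] at he ⊢
      rcases hend _ _ he.2.1 he.2.2 with h | h
      · simp only [if_pos h.1, mem_filter]
        exact ⟨⟨⟨he.1.1, h.1⟩, he.1.2⟩, he.2.1, h.2⟩
      · simp only [if_neg h.2, mem_filter, Prod.fst_swap, Prod.snd_swap]
        exact ⟨⟨⟨he.1.2, h.1⟩, he.1.1⟩, he.2.1.symm, h.2⟩
    · intro e he e' he' h
      simp only [coe_filter, mem_product, Set.mem_ofPred_eq] at he he'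
      by_cases g : InPair a (c e.1) <;> by_cases g' : InPair a (c e'.1)
      · simpa only [if_pos g, if_pos g'] using h
      · simp only [if_pos g, if_neg g'] at h
        exfalso
        refine h1 e'.1 e'.2 he'.2.1 (he'.2.2.trans ?_)
        have := he.2.2
        rw [h] at this
        simpa only [Prod.fst_swap, Prod.snd_swap] using this.symm
      · simp only [if_neg g, if_pos g'] at h
        exfalso
        refine h1 e.1 e.2 he.2.1 (he.2.2.trans ?_)
        have := he'.2.2
        rw [← h] at this
        simpa only [Prod.fst_swap, Prod.snd_swap] using this.symm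
      · simp only [if_neg g, if_neg g'] at h
        exact Prod.swap_injective h
  have e5 : (((W.filter fun u => InPair a (c u)) ×ˢ W).filter
        fun e : V × V => G.Adj e.1 e.2 ∧ ¬ InPair a (c e.2)).card =
      ∑ u ∈ W.filter (fun u => InPair a (c u)),
        (W.filter fun v => G.Adj u v ∧ ¬ InPair a (c v)).card := by
    rw [card_filter, sum_product]
    refine sum_congr rfl fun u _ => ?_
    rw [card_filter]
  rw [card_pairs W fun u v => G.Adj u v ∧ α u v = a] at e4
  have e6 := hS a W h2
  omega

/-- Let `c` be a proper colouring of `G` with four colours such that every vertex has at most two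
neighbours of each colour and, for each of the three ways to split the colours into two pairs, every
set `S` of at least two vertices contains at most `2 |S| - 3` edges from one pair to the other.  Then
`G` has a 3D orthogonal point-drawing in general position in which every edge has at most two
bends. -/
theorem result :
    ∀ (V : Type) [Fintype V] [DecidableEq V] (G : SimpleGraph V) [DecidableRel G.Adj]
      (c : V → Fin 4),
    (∀ u v, G.Adj u v → c u ≠ c v) →
    (∀ (v : V) (a : Fin 4), (univ.filter fun u => G.Adj v u ∧ c u = a).card ≤ 2) →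
    (∀ (i : Fin 3) (S : Finset V), 2 ≤ S.card →
      (∑ u ∈ S.filter (fun u => InPair i (c u)),
        (S.filter fun v => G.Adj u v ∧ ¬ InPair i (c v)).card) + 3 ≤ 2 * S.card) →
    ∃ (f : V → Fin 3 → ℤ) (b₁ b₂ : V → V → Fin 3 → ℤ),
      (∀ (a : Fin 3) (u v : V), f u a = f v a → u = v) ∧
      Function.Injective f ∧
      (∀ u v, G.Adj u v →
        (∃ i : Fin 3, ∀ j : Fin 3, j ≠ i → f u j = b₁ u v j) ∧
        (∃ i : Fin 3, ∀ j : Fin 3, j ≠ i → b₁ u v j = b₂ u v j) ∧
        (∃ i : Fin 3, ∀ j : Fin 3, j ≠ i → b₂ u v j = f v j)) ∧
      (∀ u v w, G.Adj u v →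
        (Seg (f u) (b₁ u v) (f w) ∨ Seg (b₁ u v) (b₂ u v) (f w) ∨ Seg (b₂ u v) (f v) (f w)) →
        w = u ∨ w = v) ∧
      (∀ u v u' v' x, G.Adj u v → G.Adj u' v' → s(u, v) ≠ s(u', v') →
        (Seg (f u) (b₁ u v) x ∨ Seg (b₁ u v) (b₂ u v) x ∨ Seg (b₂ u v) (f v) x) →
        (Seg (f u') (b₁ u' v') x ∨ Seg (b₁ u' v') (b₂ u' v') x ∨ Seg (b₂ u' v') (f v') x) →
        ∃ w, x = f w ∧ (w = u ∨ w = v) ∧ (w = u' ∨ w = v')) := by
  intro V _ _ G _ c hc h2 hS
  obtain ⟨α, h1, h3, h4⟩ := TBS.four_labels G c hc h2
  obtain ⟨P, hP, hv⟩ := TBS.valid_of_K G α h1 h3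
    (fun a W w hw hW => k_of_colour G c hS α h1 h4 a W w hw hW)
  obtain ⟨b₁, b₂, h⟩ := TB.drawing hP α hv
  exact ⟨P, b₁, b₂, hP, h⟩

end Pool.Agent.Results.MP_dadc3d_co.FourColouring
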