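import Pool.Agent.TBS.OriCrit
import Pool.Agent.TBS.Stack

/-!
# Two-bend drawings of graphs of maximum degree 6 without a `K_5`-minor

Let `G` be a finite simple graph of maximum degree at most 6 which can be built from the empty graph
by repeatedly adding a set `B` of new vertices (with edges inside `B` and from `B` to the set `A` of
old vertices) such that one of the following holds.

1. There are `C` in `A`, which contains all neighbours of `B` in `A`, and three linear orders of
   `B ∪ C` with the following properties: for every edge `xy` with `x` in `B` and every other `z` in
   `B ∪ C` some order has `z` above `x` and `y`; for every edge `xc` with `x` in `B` and `c` in `C` at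
   least two orders have `x` above `c`.
2. The edges with an end in `B` can be oriented, those between `A` and `B` towards `A`, with
   outdegrees at most 3 and such that every set `S` of at least two vertices of `A ∪ B`, at most one
   of them in `A`, has `∑ (2 - d(v)) ≥ 3`, where `d(v)` is the outdegree of `v` inside `S` and the sum
   is over the `v` in `S` with `d(v) ≤ 1`.

Then `G` has a 3D orthogonal point-drawing with at most two bends per edge, and even one in general
position.

For `A = C = ∅` condition 1 is Schnyder's criterion for planar graphs, so the class contains all
planar graphs (one step).  A single vertex with at most three old neighbours can always be added, so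
the class contains all graphs with a planar 4-core, in particular all 3-degenerate graphs.  In
general a set `B` can be added if `B ∪ C` induces a planar graph which can be drawn with all members
of `C` on the outer triangle.  By a theorem of Wagner every graph without a `K_5`-minor is a subgraph
of a graph which is glued together along cliques with at most three vertices from planar
triangulations and copies of a certain cubic graph with eight vertices; it can be built by adding
these pieces one by one (cut into pieces without separating triangles), so the class contains all
graphs of maximum degree at most 6 without a `K_5`-minor.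

Condition 2 also gives other graphs, for example all products of a cycle and two paths (direct all
edges of the cycles cyclically and all edges of the paths towards the beginning of the path), and
more generally all graphs which are built by adding vertices with at most three old neighbours and
induced cycles `B` such that every vertex of `B` has at most two old neighbours and no old vertex is
adjacent to all vertices of `B`.  These remarks are not formalised.

Proof.
* In step 1 direct the edge `xy` from `x` to `y` if `y` is above `x` in at most one order; so all
  edges between `B` and `A` are directed towards `A`, and all outdegrees are at most 3.  For each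
  order, the minimum of a set `S` has at most one out-neighbour in `S`, and none if it is the minimum
  of two orders.  So condition 2 holds (`TBS.OrdExt.ori`).
* Together the orientations of the steps are an orientation of `G` with outdegrees at most 3 such
  that every set `S` of at least two vertices has `∑ (2 - d(v)) ≥ 3` (`TBS.OriOn.ext`).
* By an exchange argument (Davies and McDiarmid) the half-edges can be labelled with three labels
  such that the two half-edges of an edge have different labels, every vertex has at most two
  half-edges of each label, and at most two of the (at most three) edges which start at a vertex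
  carry a given label (`TBS.ori_labels`).
* So for every label `a` and every set `S` of at least two vertices at most `2 |S| - 3` edges in `S`
  carry the label `a`.  This gives for every label an order of the vertices such that every vertex
  lies between its two neighbours of this label (`TBS.valid_of_K`); these three orders are the
  coordinates.  The routes are those of `TB.drawing`.
-/

set_option autoImplicit false

namespace Pool.Agent.Results.MP_dadc3d_co.NoK5Minor

open Finset

/-- `x` is a lattice point of the axis-parallel segment from `p` to `q` (as in the frozen
statement). -/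
def Seg (p q x : Fin 3 → ℤ) : Prop :=
  ∃ i : Fin 3, (∀ j : Fin 3, j ≠ i → x j = p j ∧ q j = p j) ∧
      ((p i ≤ x i ∧ x i ≤ q i) ∨ (q i ≤ x i ∧ x i ≤ p i))

/-- Three linear orders of `B ∪ C` (given by functions which are injective on `B ∪ C`) such that for
every edge `xy` with `x` in `B` and `y` in `B ∪ C` and every other `z` in `B ∪ C` some order has `z`
above `x` and `y`, and for every edge `xc` with `x` in `B` and `c` in `C` at least two orders have
`x` above `c`.  If `C` is empty this is Schnyder's criterion for the planarity of `G[B]`. -/
def RootedOrders {V : Type} [DecidableEq V] (G : SimpleGraph V) (B C : Finset V) : Prop :=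
  ∃ r : Fin 3 → V → ℕ, (∀ i, ∀ x ∈ B ∪ C, ∀ y ∈ B ∪ C, r i x = r i y → x = y) ∧
    (∀ x ∈ B, ∀ y ∈ B ∪ C, ∀ z ∈ B ∪ C, G.Adj x y → z ≠ x → z ≠ y →
      ∃ i, r i x < r i z ∧ r i y < r i z) ∧
    ∀ x ∈ B, ∀ c ∈ C, G.Adj x c → ∃ i j, i ≠ j ∧ r i c < r i x ∧ r j c < r j x

/-- The edges of `G` inside `B` and between `B` and `A` have an orientation `o`, directed towards `A`
for the edges between `B` and `A`, with all outdegrees at most 3 such that for every set `S` of at
least two vertices in `A ∪ B`, at most one of them in `A`, the sum over `v` in `S` of
`(2 - outdegree of v inside S)^+` is at least 3. -/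
def RootedOrientation {V : Type} [DecidableEq V] (G : SimpleGraph V) (A B : Finset V) : Prop :=
  ∃ (o : V → V → Prop) (_ : DecidableRel o),
    (∀ u v, o u v → u ∈ B ∧ v ∈ A ∪ B ∧ G.Adj u v) ∧
    (∀ u ∈ B, ∀ v ∈ A ∪ B, G.Adj u v → o u v ∨ o v u) ∧ (∀ u v, o u v → ¬ o v u) ∧
    (∀ u, ((A ∪ B).filter fun v => o u v).card ≤ 3) ∧
    ∀ S ⊆ A ∪ B, 2 ≤ S.card → (S ∩ A).card ≤ 1 →
      3 ≤ ∑ v ∈ S, (2 - (S.filter fun w => o v w).card)

/-- `Built G A`: the graph induced by `G` on `A` can be built from the empty graph by repeatedly
adding a set `B` of new vertices to the set `A` of old vertices, where `RootedOrders G B C` holds for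
some `C` in `A` which contains all neighbours of `B` in `A`, or `RootedOrientation G A B` holds. -/
inductive Built {V : Type} [DecidableEq V] (G : SimpleGraph V) : Finset V → Prop
  | empty : Built G ∅
  | orders {A B C : Finset V} : Built G A → Disjoint A B → C ⊆ A →
      (∀ b ∈ B, ∀ a ∈ A, G.Adj b a → a ∈ C) → RootedOrders G B C → Built G (A ∪ B)
  | orientation {A B : Finset V} : Built G A → Disjoint A B → RootedOrientation G A B →
      Built G (A ∪ B)

/-- Let `G` be a graph of maximum degree at most 6 which can be built as in `Built`.  Then `G` has a
3D orthogonal point-drawing in general position in which every edge has at most two bends. -/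
theorem result :
    ∀ (V : Type) [Fintype V] [DecidableEq V] (G : SimpleGraph V) [DecidableRel G.Adj],
    G.maxDegree ≤ 6 → Built G univ →
    ∃ (f : V → Fin 3 → ℤ) (b₁ b₂ : V → V → Fin 3 → ℤ),
      (∀ (a : Fin 3) (u v : V), f u a = f v a → u = v) ∧
      Function.Injective f ∧
      (∀ u v, G.Adj u v →
        (∃ i : Fin 3, ∀ j : Fin 3, j ≠ i → f u j = b₁ u v j) ∧
        (∃ i : Fin 3, ∀ j : Fin 3, j ≠ i → b₁ u v j = b₂ u v j) ∧
        (∃ i : Fin 3, ∀ j : Fin 3, j ≠ i → b₂ u v j = f v j)) ∧
      (∀ u v w, G.Adj u v →
        (Seg (f u) (b₁ u v) (f w) ∨ Seg (b₁ u v) (b₂ u v) (f w) ∨ Seg (b₂ u v) (f v) (f w)) →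
        w = u ∨ w = v) ∧
      (∀ u v u' v' x, G.Adj u v → G.Adj u' v' → s(u, v) ≠ s(u', v') →
        (Seg (f u) (b₁ u v) x ∨ Seg (b₁ u v) (b₂ u v) x ∨ Seg (b₂ u v) (f v) x) →
        (Seg (f u') (b₁ u' v') x ∨ Seg (b₁ u' v') (b₂ u' v') x ∨ Seg (b₂ u' v') (f v') x) →
        ∃ w, x = f w ∧ (w = u ∨ w = v) ∧ (w = u' ∨ w = v')) := by
  intro V _ _ G _ hΔ hG
  have hd : ∀ u, (univ.filter fun v => G.Adj u v).card ≤ 6 := by
    intro u
    have h1 := G.degree_le_maxDegree u
    rw [← SimpleGraph.card_neighborFinset_eq_degree, SimpleGraph.neighborFinset_eq_filter] at h1
    omega
  have key : ∀ A : Finset V, Built G A → TBS.OriOn G A := by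
    intro A hA
    induction hA with
    | empty => exact TBS.ori_empty' G
    | orders _ hd hC hN hR ih => exact ih.ext hd (TBS.OrdExt.ori hR hC hN)
    | orientation _ hd hR ih => exact ih.ext hd hR
  obtain ⟨o, _, h1, h2, h3, h4, h5⟩ := key univ hG
  obtain ⟨P, α, hP, hv⟩ := TBS.exists_valid_of_ori G o (fun u v h => (h1 u v h).2.2)
    (fun u v h => h2 u (mem_univ _) v (mem_univ _) h) h3 hd h4 (fun S => h5 S (subset_univ _))
  obtain ⟨b₁, b₂, h⟩ := TB.drawing hP α hv
  exact ⟨P, b₁, b₂, hP, h⟩

end Pool.Agent.Results.MP_dadc3d_co.NoK5Minor
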