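import Pool.Agent.TBS.OriCrit
import Pool.Agent.TBS.OriOrd

/-!
# Two-bend drawings of planar graphs of maximum degree 6

Let `G` be a finite simple graph of maximum degree at most 6 which is planar, or more generally whose
4-core (the largest subgraph in which all degrees are at least 4) is planar.  Planarity is used in
the form of Schnyder's criterion: there are three linear orders of the vertices such that for every
edge `xy` and every other vertex `z` some of the orders has `z` above `x` and `y` (the incidence
poset has dimension at most three).  Then `G` has a 3D orthogonal point-drawing with at most two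
bends per edge, and even one in general position.

Instead of being planar the 4-core may have an orientation with all outdegrees at most 3 such that
every set `S` of at least two vertices has `∑ (2 - d(v)) ≥ 3`, where `d(v)` is the outdegree of `v`
inside `S` and the sum is over the `v` in `S` with `d(v) ≤ 1`.

Proof.
* Three orders give such an orientation (`TBS.OrdOn.ori`): the edge `xy` is directed from `x` to `y`
  if `y` is above `x` in at most one order.  For each order, the minimum of `S` has at most one
  out-neighbour in `S`, and none if it is the minimum of two orders.  Vertices with at most three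
  neighbours can be added (`TBS.OriOn.add`).
* By an exchange argument (Davies and McDiarmid) the half-edges can be labelled with three labels
  such that the two half-edges of an edge have different labels, every vertex has at most two
  half-edges of each label, and at most two of the (at most three) edges which start at a vertex
  carry a given label (`TBS.ori_labels`).
* So for every label `a` and every set `S` of at least two vertices at most `2 |S| - 3` edges in `S`
  carry the label `a`.  This gives for every label an order of the vertices such that every vertex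
  lies between its two neighbours of this label (`TBS.valid_of_K`); these three orders are the
  coordinates.  The routes are those of `TB.drawing`.
-/

set_option autoImplicit false

namespace Pool.Agent.Results.MP_dadc3d_co.PlanarGraphs

open Finset

/-- `x` is a lattice point of the axis-parallel segment from `p` to `q` (as in the frozen
statement). -/
def Seg (p q x : Fin 3 → ℤ) : Prop :=
  ∃ i : Fin 3, (∀ j : Fin 3, j ≠ i → x j = p j ∧ q j = p j) ∧
      ((p i ≤ x i ∧ x i ≤ q i) ∨ (q i ≤ x i ∧ x i ≤ p i))

/-- Schnyder's criterion for the planarity of the subgraph induced by `A`: three linear orders of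
`A` (given by functions which are injective on `A`) such that for every edge `xy` and every other
vertex `z` some order has `z` above `x` and `y`. -/
def ThreeOrders {V : Type} (G : SimpleGraph V) (A : Finset V) : Prop :=
  ∃ r : Fin 3 → V → ℕ, (∀ i, ∀ x ∈ A, ∀ y ∈ A, r i x = r i y → x = y) ∧
    ∀ x ∈ A, ∀ y ∈ A, ∀ z ∈ A, G.Adj x y → z ≠ x → z ≠ y →
      ∃ i, r i x < r i z ∧ r i y < r i z

/-- The subgraph induced by `A` has an orientation `o` with all outdegrees at most 3 such that for
every set `S` of at least two vertices in `A` the sum over `v` in `S` of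
`(2 - outdegree of v inside S)^+` is at least 3. -/
def SparseOrientation {V : Type} (G : SimpleGraph V) (A : Finset V) : Prop :=
  ∃ (o : V → V → Prop) (_ : DecidableRel o), (∀ u v, o u v → u ∈ A ∧ v ∈ A ∧ G.Adj u v) ∧
    (∀ u ∈ A, ∀ v ∈ A, G.Adj u v → o u v ∨ o v u) ∧ (∀ u v, o u v → ¬ o v u) ∧
    (∀ u, (A.filter fun v => o u v).card ≤ 3) ∧
    ∀ S ⊆ A, 2 ≤ S.card → 3 ≤ ∑ v ∈ S, (2 - (S.filter fun w => o v w).card)

/-- Let `G` be a graph of maximum degree at most 6 such that every set `A` of vertices in which every
vertex has at least four neighbours (equivalently, the largest such `A`, the 4-core) induces a planar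
graph, or at least a graph with an orientation as in `SparseOrientation`.  Then `G` has a 3D
orthogonal point-drawing in general position in which every edge has at most two bends. -/
theorem result :
    ∀ (V : Type) [Fintype V] [DecidableEq V] (G : SimpleGraph V) [DecidableRel G.Adj],
    G.maxDegree ≤ 6 →
    (∀ A : Finset V, (∀ v ∈ A, 4 ≤ (A.filter fun w => G.Adj v w).card) →
      ThreeOrders G A ∨ SparseOrientation G A) →
    ∃ (f : V → Fin 3 → ℤ) (b₁ b₂ : V → V → Fin 3 → ℤ),
      (∀ (a : Fin 3) (u v : V), f u a = f v a → u = v) ∧
      Function.Injective f ∧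
      (∀ u v, G.Adj u v →
        (∃ i : Fin 3, ∀ j : Fin 3, j ≠ i → f u j = b₁ u v j) ∧
        (∃ i : Fin 3, ∀ j : Fin 3, j ≠ i → b₁ u v j = b₂ u v j) ∧
        (∃ i : Fin 3, ∀ j : Fin 3, j ≠ i → b₂ u v j = f v j)) ∧
      (∀ u v w, G.Adj u v →
        (Seg (f u) (b₁ u v) (f w) ∨ Seg (b₁ u v) (b₂ u v) (f w) ∨ Seg (b₂ u v) (f v) (f w)) →
        w = u ∨ w = v) ∧
      (∀ u v u' v' x, G.Adj u v → G.Adj u' v' → s(u, v) ≠ s(u', v') →
        (Seg (f u) (b₁ u v) x ∨ Seg (b₁ u v) (b₂ u v) x ∨ Seg (b₂ u v) (f v) x) →
        (Seg (f u') (b₁ u' v') x ∨ Seg (b₁ u' v') (b₂ u' v') x ∨ Seg (b₂ u' v') (f v') x) →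
        ∃ w, x = f w ∧ (w = u ∨ w = v) ∧ (w = u' ∨ w = v')) := by
  intro V _ _ G _ hΔ hG
  have hd : ∀ u, (univ.filter fun v => G.Adj u v).card ≤ 6 := by
    intro u
    have h1 := G.degree_le_maxDegree u
    rw [← SimpleGraph.card_neighborFinset_eq_degree, SimpleGraph.neighborFinset_eq_filter] at h1
    omega
  have hO : TBS.OriOn G univ := TBS.ori_of_core _ univ rfl fun A _ hA => by
    rcases hG A hA with h | h
    · exact TBS.OrdOn.ori h
    · exact h
  obtain ⟨o, _, h1, h2, h3, h4, h5⟩ := hO
  obtain ⟨P, α, hP, hv⟩ := TBS.exists_valid_of_ori G o (fun u v h => (h1 u v h).2.2)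
    (fun u v h => h2 u (mem_univ _) v (mem_univ _) h) h3 hd h4 (fun S => h5 S (subset_univ _))
  obtain ⟨b₁, b₂, h⟩ := TB.drawing hP α hv
  exact ⟨P, b₁, b₂, hP, h⟩

end Pool.Agent.Results.MP_dadc3d_co.PlanarGraphs
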