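import Pool.Agent.TBS.Core

/-!
# Two-bend drawings of graphs of maximum degree 6 with a sparse 4-core

The 4-core of a graph is its largest (possibly empty) subgraph in which all degrees are at least 4.
Every finite simple graph of maximum degree at most 6 whose 4-core contains no `K_5` and has
fractional arboricity at most 5/2 (every nonempty set `T` of vertices of the 4-core spans at most
`5 (|T| - 1) / 2` edges) has a 3D orthogonal point-drawing with at most two bends per edge, and even
one in general position (no two vertices have a common coordinate).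

Proof.  Delete vertices of degree at most 3 until the 4-core is left.  A graph of the sparse class
has a vertex `v` with at most four neighbours.  If it has exactly four, then two
of them, `s` and `t`, are not adjacent and `G - v + st` is again in the class (`TBS.exists_pair`,
uncrossing of tight sets).  So the graph reduces to the empty graph; going back, one constructs
labels of the half-edges with three labels, each label twice at every vertex (auxiliary pairs of
half-edges make the graph 6-regular), different at the two ends of every edge, such that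
every set `S` of at least two vertices contains at most `2 |S| - 3` half-edges of each label inside
`S` (`TBS.main`).  For every label there is then a linear order of the vertices in which every vertex
lies between its two neighbours of this label (`TBS.exists_order`); these three orders are the
coordinates.  The routes are those of `TB.drawing`.
-/

set_option autoImplicit false

namespace Pool.Agent.Results.MP_dadc3d_co.SparseFourCore

/-- `x` is a lattice point of the axis-parallel segment from `p` to `q` (as in the frozen
statement). -/
def Seg (p q x : Fin 3 → ℤ) : Prop :=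
  ∃ i : Fin 3, (∀ j : Fin 3, j ≠ i → x j = p j ∧ q j = p j) ∧
      ((p i ≤ x i ∧ x i ≤ q i) ∨ (q i ≤ x i ∧ x i ≤ p i))

/-- Let `G` have maximum degree at most 6.  If every nonempty subset `T` of every vertex set `S`, in
which all vertices have at least four neighbours, is not a `K_5` and spans at most `5 (|T| - 1) / 2`
edges (the sum of the degrees inside `T` is at most `5 (|T| - 1)`), then `G` has a 3D orthogonal
point-drawing in general position in which every edge has at most two bends. -/
theorem result :
    ∀ (V : Type) [Fintype V] [DecidableEq V] (G : SimpleGraph V) [DecidableRel G.Adj],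
    G.maxDegree ≤ 6 →
    (∀ S : Finset V, (∀ v ∈ S, 4 ≤ (S.filter fun u => G.Adj v u).card) →
      ∀ T ⊆ S, T.Nonempty → ¬ G.IsNClique 5 T ∧
        (∑ v ∈ T, (T.filter fun u => G.Adj v u).card) + 5 ≤ 5 * T.card) →
    ∃ (f : V → Fin 3 → ℤ) (b₁ b₂ : V → V → Fin 3 → ℤ),
      (∀ (a : Fin 3) (u v : V), f u a = f v a → u = v) ∧
      Function.Injective f ∧
      (∀ u v, G.Adj u v →
        (∃ i : Fin 3, ∀ j : Fin 3, j ≠ i → f u j = b₁ u v j) ∧
        (∃ i : Fin 3, ∀ j : Fin 3, j ≠ i → b₁ u v j = b₂ u v j) ∧
        (∃ i : Fin 3, ∀ j : Fin 3, j ≠ i → b₂ u v j = f v j)) ∧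
      (∀ u v w, G.Adj u v →
        (Seg (f u) (b₁ u v) (f w) ∨ Seg (b₁ u v) (b₂ u v) (f w) ∨ Seg (b₂ u v) (f v) (f w)) →
        w = u ∨ w = v) ∧
      (∀ u v u' v' x, G.Adj u v → G.Adj u' v' → s(u, v) ≠ s(u', v') →
        (Seg (f u) (b₁ u v) x ∨ Seg (b₁ u v) (b₂ u v) x ∨ Seg (b₂ u v) (f v) x) →
        (Seg (f u') (b₁ u' v') x ∨ Seg (b₁ u' v') (b₂ u' v') x ∨ Seg (b₂ u' v') (f v') x) →
        ∃ w, x = f w ∧ (w = u ∨ w = v) ∧ (w = u' ∨ w = v')) := by
  intro V _ _ G _ hΔ hS
  obtain ⟨P, α, hP, hv⟩ := TBS.exists_valid_of_core G hΔ hS
  obtain ⟨b₁, b₂, h⟩ := TB.drawing hP α hv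
  exact ⟨P, b₁, b₂, hP, h⟩

end Pool.Agent.Results.MP_dadc3d_co.SparseFourCore
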