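import Pool.Agent.TBS.LabK
import Pool.Agent.TBS.ColLab

/-!
# Two-bend drawings of 3-colourable graphs of maximum degree 6

Let `G` be a finite simple graph with a proper colouring with three colours such that every vertex
has at most three neighbours of each colour, and such that for every colour every set `S` of at least
two vertices contains at most `2 |S| - 3` edges with an end of this colour.  Then `G` has a 3D
orthogonal point-drawing with at most two bends per edge, and even one in general position.

The second condition holds for every planar graph (the edges with an end of a given colour form a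
bipartite planar graph).  So the theorem applies to all subgraphs of Eulerian planar triangulations
of maximum degree 6, such as the octahedron (for these the neighbours of a vertex alternate
between two colours).

Proof.  By Koenig's theorem the edges can be coloured with three colours such that edges which start
at the same vertex and end at vertices of the same colour are different.  Give the half-edge of `u`
on the edge `uv` the label `c u` if the colour is 0, and `c v` otherwise.  Every label occurs at most
twice at every vertex (`TBS.colour_labels`), and the half-edges of label `a` lie on edges with an end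
of colour `a`, one on each.  The sparsity gives for every label an order of the vertices such that
every vertex lies between its two neighbours of this label (`TBS.valid_of_K`); these three orders
are the coordinates.  The routes are those of `TB.drawing`.
-/

set_option autoImplicit false

namespace Pool.Agent.Results.MP_dadc3d_co.ThreeColouring

open Finset

/-- `x` is a lattice point of the axis-parallel segment from `p` to `q` (as in the frozen
statement). -/
def Seg (p q x : Fin 3 → ℤ) : Prop :=
  ∃ i : Fin 3, (∀ j : Fin 3, j ≠ i → x j = p j ∧ q j = p j) ∧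
      ((p i ≤ x i ∧ x i ≤ q i) ∨ (q i ≤ x i ∧ x i ≤ p i))

theorem card_pairs {V : Type} [DecidableEq V] (W : Finset V) (p : V → V → Prop)
    [∀ u, DecidablePred (p u)] :
    ((W ×ˢ W).filter fun e : V × V => p e.1 e.2).card = ∑ u ∈ W, (W.filter fun v => p u v).card := by
  rw [card_filter, sum_product]
  refine sum_congr rfl fun u _ => ?_
  rw [card_filter]

theorem k_of_colour {V : Type} [Fintype V] [DecidableEq V] (G : SimpleGraph V)
    [DecidableRel G.Adj] (c : V → Fin 3)
    (hS : ∀ (a : Fin 3) (S : Finset V), 2 ≤ S.card →
      (∑ u ∈ S.filter (fun u => c u = a), (S.filter fun v => G.Adj u v).card) + 3 ≤ 2 * S.card)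
    (α : V → V → Fin 3) (h1 : ∀ u v, G.Adj u v → α u v ≠ α v u)
    (h4 : ∀ u v, G.Adj u v → (α u v = c u ∧ α v u = c v) ∨ (α u v = c v ∧ α v u = c u))
    (a : Fin 3) (W : Finset V) (w : V) (hw : w ∈ W) (h2 : 2 ≤ W.card) :
    ∃ v ∈ W, v ≠ w ∧ (W.filter fun v' => G.Adj v v' ∧ α v v' = a).card ≤ 1 := by
  by_contra hcon
  push Not at hcon
  -- at least `2 (|W| - 1)` half-edges of label `a`
  have e1 : 2 * (W.card - 1) ≤
      ∑ u ∈ W, (W.filter fun v' => G.Adj u v' ∧ α u v' = a).card := by
    have e2 : ∑ u ∈ W.erase w, (W.filter fun v' => G.Adj u v' ∧ α u v' = a).card ≤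
        ∑ u ∈ W, (W.filter fun v' => G.Adj u v' ∧ α u v' = a).card :=
      sum_le_sum_of_subset (erase_subset _ _)
    refine le_trans ?_ e2
    have e3 : (W.erase w).card • 2 ≤
        ∑ u ∈ W.erase w, (W.filter fun v' => G.Adj u v' ∧ α u v' = a).card := by
      refine card_nsmul_le_sum _ _ _ fun u hu => ?_
      exact hcon u (mem_of_mem_erase hu) (ne_of_mem_erase hu)
    rw [card_erase_of_mem hw] at e3
    rw [smul_eq_mul, mul_comm] at e3
    exact e3
  -- they inject into the pairs whose first vertex has colour `a`
  have e4 : ((W ×ˢ W).filter fun e : V × V => G.Adj e.1 e.2 ∧ α e.1 e.2 = a).card ≤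
      (((W.filter fun u => c u = a) ×ˢ W).filter fun e : V × V => G.Adj e.1 e.2).card := by
    have hend : ∀ u v, G.Adj u v → α u v = a → c u ≠ a → c v = a := by
      intro u v h h' h''
      rcases h4 u v h with ⟨x, _⟩ | ⟨x, _⟩
      · exact absurd (x.symm.trans h') h''
      · exact x.symm.trans h'
    refine card_le_card_of_injOn (fun e => if c e.1 = a then e else e.swap) ?_ ?_
    · intro e he
      simp only [coe_filter, mem_product, Set.mem_ofPred_eq] at he ⊢
      by_cases h : c e.1 = a
      · simp only [if_pos h, mem_filter]
        exact ⟨⟨⟨he.1.1, h⟩, he.1.2⟩, he.2.1⟩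
      · simp only [if_neg h, mem_filter, Prod.fst_swap, Prod.snd_swap]
        exact ⟨⟨⟨he.1.2, hend _ _ he.2.1 he.2.2 h⟩, he.1.1⟩, he.2.1.symm⟩
    · intro e he e' he' h
      simp only [coe_filter, mem_product, Set.mem_ofPred_eq] at he he'
      by_cases g : c e.1 = a <;> by_cases g' : c e'.1 = a
      · simpa only [if_pos g, if_pos g'] using h
      · simp only [if_pos g, if_neg g'] at h
        exfalso
        refine h1 e'.1 e'.2 he'.2.1 (he'.2.2.trans ?_)
        have := he.2.2
        rw [h] at this
        simpa only [Prod.fst_swap, Prod.snd_swap] using this.symm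
      · simp only [if_neg g, if_pos g'] at h
        exfalso
        refine h1 e.1 e.2 he.2.1 (he.2.2.trans ?_)
        have := he'.2.2
        rw [← h] at this
        simpa only [Prod.fst_swap, Prod.snd_swap] using this.symm
      · simp only [if_neg g, if_neg g'] at h
        exact Prod.swap_injective h
  have e5 : (((W.filter fun u => c u = a) ×ˢ W).filter fun e : V × V => G.Adj e.1 e.2).card =
      ∑ u ∈ W.filter (fun u => c u = a), (W.filter fun v => G.Adj u v).card := by
    rw [card_filter, sum_product]
    refine sum_congr rfl fun u _ => ?_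
    rw [card_filter]
  rw [card_pairs W fun u v => G.Adj u v ∧ α u v = a] at e4
  have e6 := hS a W h2
  omega

/-- Let `c` be a proper colouring of `G` with three colours such that every vertex has at most three
neighbours of each colour and, for every colour `a`, every set `S` of at least two vertices contains
at most `2 |S| - 3` edges with an end of colour `a`.  Then `G` has a 3D orthogonal point-drawing in
general position in which every edge has at most two bends. -/
theorem result :
    ∀ (V : Type) [Fintype V] [DecidableEq V] (G : SimpleGraph V) [DecidableRel G.Adj]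
      (c : V → Fin 3),
    (∀ u v, G.Adj u v → c u ≠ c v) →
    (∀ (v : V) (a : Fin 3), (univ.filter fun u => G.Adj v u ∧ c u = a).card ≤ 3) →
    (∀ (a : Fin 3) (S : Finset V), 2 ≤ S.card →
      (∑ u ∈ S.filter (fun u => c u = a), (S.filter fun v => G.Adj u v).card) + 3 ≤ 2 * S.card) →
    ∃ (f : V → Fin 3 → ℤ) (b₁ b₂ : V → V → Fin 3 → ℤ),
      (∀ (a : Fin 3) (u v : V), f u a = f v a → u = v) ∧
      Function.Injective f ∧
      (∀ u v, G.Adj u v →
        (∃ i : Fin 3, ∀ j : Fin 3, j ≠ i → f u j = b₁ u v j) ∧
        (∃ i : Fin 3, ∀ j : Fin 3, j ≠ i → b₁ u v j = b₂ u v j) ∧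
        (∃ i : Fin 3, ∀ j : Fin 3, j ≠ i → b₂ u v j = f v j)) ∧
      (∀ u v w, G.Adj u v →
        (Seg (f u) (b₁ u v) (f w) ∨ Seg (b₁ u v) (b₂ u v) (f w) ∨ Seg (b₂ u v) (f v) (f w)) →
        w = u ∨ w = v) ∧
      (∀ u v u' v' x, G.Adj u v → G.Adj u' v' → s(u, v) ≠ s(u', v') →
        (Seg (f u) (b₁ u v) x ∨ Seg (b₁ u v) (b₂ u v) x ∨ Seg (b₂ u v) (f v) x) →
        (Seg (f u') (b₁ u' v') x ∨ Seg (b₁ u' v') (b₂ u' v') x ∨ Seg (b₂ u' v') (f v') x) →
        ∃ w, x = f w ∧ (w = u ∨ w = v) ∧ (w = u' ∨ w = v')) := by
  intro V _ _ G _ c hc h3 hS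
  obtain ⟨α, h1, h2, h4⟩ := TBS.colour_labels G c hc h3
  obtain ⟨P, hP, hv⟩ := TBS.valid_of_K G α h1 h2
    (fun a W w hw hW => k_of_colour G c hS α h1 h4 a W w hw hW)
  obtain ⟨b₁, b₂, h⟩ := TB.drawing hP α hv
  exact ⟨P, b₁, b₂, hP, h⟩

end Pool.Agent.Results.MP_dadc3d_co.ThreeColouring
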