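import Pool.Agent.TBS.RedO

/-!
# Two-bend drawings of graphs whose topological minors are planar or have few edges at some vertex

Let `G` be a finite simple graph of maximum degree at most 6.  Suppose that every topological minor
of `G` in which all degrees are at least 5 is planar (or at least has an orientation as in
`SparseOrientation`), and that `G` contains no subdivision of `K_5`.  Then `G` has a 3D orthogonal
point-drawing with at most two bends per edge, and even one in general position (no two vertices
have a common coordinate).

The class contains all planar graphs and all graphs of treewidth at most 4 without a subdivision of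
`K_5` (of maximum degree at most 6); it is closed under topological minors.

Proof.  If `G` is not planar it has a vertex `v` with at most four neighbours; if it has exactly
four, then two of them, `s` and `t`, are not adjacent and `G - v + st` is again in the class.  So the
graph reduces to a planar graph, or a graph with an orientation as in `SparseOrientation`.  Three
orders as in Schnyder's criterion give such an orientation (`TBS.OrdOn.ori`).  Such an orientation
gives labels of the half-edges with three labels, each label twice at every vertex (auxiliary pairs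
of half-edges make the graph 6-regular), different at the two ends of every edge, such that every
set `S` of at least two vertices contains at most `2 |S| - 3` half-edges of each label inside `S`
(`TBS.gd_of_ori`, by an exchange argument of Davies and McDiarmid, `TBS.dm`).  Going back through
the reductions one constructs such labels for `G` (`TBS.mainO`).  For every label there is then a
linear order of the vertices in which every vertex lies between its two neighbours of this label
(`TBS.exists_order`); these three orders are the coordinates.  The routes are those of `TB.drawing`.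
-/

set_option autoImplicit false

namespace Pool.Agent.Results.MP_dadc3d_co.TopologicalMinors

/-- `x` is a lattice point of the axis-parallel segment from `p` to `q` (as in the frozen
statement). -/
def Seg (p q x : Fin 3 → ℤ) : Prop :=
  ∃ i : Fin 3, (∀ j : Fin 3, j ≠ i → x j = p j ∧ q j = p j) ∧
      ((p i ≤ x i ∧ x i ≤ q i) ∨ (q i ≤ x i ∧ x i ≤ p i))

/-- `Reduct G A H`: the graph induced by `H` on the vertex set `A` is obtained from `G` by steps of
the following kinds: delete a vertex `v`; replace a vertex `v` by an edge between two of its
neighbours `s`, `t` (delete `v` and join `s` and `t`, if they are not yet adjacent).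

The graphs `H[A]` of this kind are topological minors of `G`, and every topological minor of `G` is
isomorphic to a spanning subgraph of one of them. -/
inductive Reduct {V : Type} [Fintype V] [DecidableEq V] (G : SimpleGraph V) :
    Finset V → SimpleGraph V → Prop
  | start : Reduct G Finset.univ G
  | delete {A : Finset V} {H : SimpleGraph V} {v : V} :
      Reduct G A H → v ∈ A → Reduct G (A.erase v) H
  | suppress {A : Finset V} {H : SimpleGraph V} {v s t : V} :
      Reduct G A H → v ∈ A → s ∈ A → t ∈ A → s ≠ t → H.Adj v s → H.Adj v t →
      Reduct G (A.erase v) (H ⊔ SimpleGraph.edge s t)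

/-- Schnyder's criterion for the planarity of the graph induced by `G` on `A`: three linear orders of
`A` (given by functions which are injective on `A`) such that for every edge `xy` and every other
vertex `z` some order has `z` above `x` and `y`. -/
def ThreeOrders {V : Type} (G : SimpleGraph V) (A : Finset V) : Prop :=
  ∃ r : Fin 3 → V → ℕ, (∀ i, ∀ x ∈ A, ∀ y ∈ A, r i x = r i y → x = y) ∧
    ∀ x ∈ A, ∀ y ∈ A, ∀ z ∈ A, G.Adj x y → z ≠ x → z ≠ y →
      ∃ i, r i x < r i z ∧ r i y < r i z

/-- The graph induced by `G` on `A` has an orientation `o` with all outdegrees at most 3 such that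
for every set `S` of at least two vertices in `A` the sum over `v` in `S` of
`(2 - outdegree of v inside S)^+` is at least 3. -/
def SparseOrientation {V : Type} (G : SimpleGraph V) (A : Finset V) : Prop :=
  ∃ (o : V → V → Prop) (_ : DecidableRel o), (∀ u v, o u v → u ∈ A ∧ v ∈ A ∧ G.Adj u v) ∧
    (∀ u ∈ A, ∀ v ∈ A, G.Adj u v → o u v ∨ o v u) ∧ (∀ u v, o u v → ¬ o v u) ∧
    (∀ u, (A.filter fun v => o u v).card ≤ 3) ∧
    ∀ S ⊆ A, 2 ≤ S.card → 3 ≤ ∑ v ∈ S, (2 - (S.filter fun w => o v w).card)

open Classical in
/-- Let `G` have maximum degree at most 6.  Suppose that every nonempty graph obtained from `G` by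
repeatedly deleting a vertex or replacing a vertex by an edge between two of its neighbours
* is planar (Schnyder's criterion), or
* has an orientation as in `SparseOrientation`, or
* has a vertex `v` with at most four neighbours such that `v` and its neighbours do not form a `K_5`.
(In other words: no topological minor of `G` is `K_5`, and every topological minor of minimum degree
at least 5 is planar or has such an orientation.)  Then `G` has a 3D orthogonal point-drawing in
general position in which every edge has at most two bends. -/
theorem result :
    ∀ (V : Type) [Fintype V] [DecidableEq V] (G : SimpleGraph V) [DecidableRel G.Adj],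
    G.maxDegree ≤ 6 →
    (∀ (A : Finset V) (H : SimpleGraph V), Reduct G A H → A.Nonempty →
      ThreeOrders H A ∨ SparseOrientation H A ∨
      ∃ v ∈ A, (A.filter fun u => H.Adj v u).card ≤ 4 ∧
        ¬ H.IsNClique 5 (insert v (A.filter fun u => H.Adj v u))) →
    ∃ (f : V → Fin 3 → ℤ) (b₁ b₂ : V → V → Fin 3 → ℤ),
      (∀ (a : Fin 3) (u v : V), f u a = f v a → u = v) ∧
      Function.Injective f ∧
      (∀ u v, G.Adj u v →
        (∃ i : Fin 3, ∀ j : Fin 3, j ≠ i → f u j = b₁ u v j) ∧
        (∃ i : Fin 3, ∀ j : Fin 3, j ≠ i → b₁ u v j = b₂ u v j) ∧
        (∃ i : Fin 3, ∀ j : Fin 3, j ≠ i → b₂ u v j = f v j)) ∧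
      (∀ u v w, G.Adj u v →
        (Seg (f u) (b₁ u v) (f w) ∨ Seg (b₁ u v) (b₂ u v) (f w) ∨ Seg (b₂ u v) (f v) (f w)) →
        w = u ∨ w = v) ∧
      (∀ u v u' v' x, G.Adj u v → G.Adj u' v' → s(u, v) ≠ s(u', v') →
        (Seg (f u) (b₁ u v) x ∨ Seg (b₁ u v) (b₂ u v) x ∨ Seg (b₂ u v) (f v) x) →
        (Seg (f u') (b₁ u' v') x ∨ Seg (b₁ u' v') (b₂ u' v') x ∨ Seg (b₂ u' v') (f v') x) →
        ∃ w, x = f w ∧ (w = u ∨ w = v) ∧ (w = u' ∨ w = v')) := by
  intro V _ _ G _ hΔ hM
  have hcr : ∀ (A : Finset V) (H : SimpleGraph V) (v : V),
      TBS.cr H {v} A = (A.filter fun u => H.Adj v u).card := by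
    intro A H v
    unfold TBS.cr
    rw [Finset.sum_singleton]
  have hR : TBS.RedO Finset.univ G := by
    refine TBS.redO_of_closed (Reduct G) (fun A H v h hv => Reduct.delete h hv)
      (fun A H v s t h hv hs ht hst as at_ => Reduct.suppress h hv hs ht hst as at_)
      (fun A H h hne => ?_) _ Finset.univ G rfl Reduct.start
    rcases hM A H h hne with h1 | h1 | ⟨v, hv, hd, hcl⟩
    · exact Or.inl (TBS.OrdOn.ori h1)
    · exact Or.inl h1
    · exact Or.inr ⟨v, hv, by rw [hcr]; exact hd, hcl⟩
  obtain ⟨P, α, hP, hv⟩ := TBS.exists_valid_of_redO G hΔ hR
  obtain ⟨b₁, b₂, h⟩ := TB.drawing hP α hv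
  exact ⟨P, b₁, b₂, hP, h⟩

end Pool.Agent.Results.MP_dadc3d_co.TopologicalMinors
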